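import Pool.Agent.SZG.StmtsM

/-! SZG row CAB (helper3): canonical size on the plane. -/

namespace Pool.Agent.SZG.H3

open scoped BigOperators
open Pool.Agent.THS Pool.Agent.SZG

theorem cab (hcaa : CaaStmt) (htcs : TcsStmt) (hxub : XubStmt) (_hwxc : WxcStmt) : CabStmt := by
  intro K I _ _ v θ g E L0 c e s T x W X Z δ hqs hwx hna hv2 hth0 hth1 ha hb
  have hmax : ∀ n : ℤ, ∀ p, v (x 0 p) = nv v (x 0) → v (x (n • δ) p) = nv v (x (n • δ)) := by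
    intro n p hp
    obtain ⟨κ, -, -, -, h4⟩ := htcs K (Ch g × Ch g) v θ (x (n • δ)) (x 0) hna hth0.le hth1
      (hqs.x0 _) (hqs.x0 _) (hb n)
    exact h4 p hp
  obtain ⟨p0, hp0⟩ : ∃ p, v (x 0 p) = nv v (x 0) := by
    obtain ⟨p, hp, hp'⟩ := ha 0
    exact ⟨p, hp'⟩
  have hcm : ∀ n : ℤ, CM v (x (n • δ)) (x 0) := fun n => ⟨p0, hmax n p0 hp0, hp0⟩
  have hZ := hcaa K I v g E L0 c e s T x W X Z hqs hwx hna hv2 ha
  have hδ := hcaa K I v g E L0 c e s T x W X δ hqs hwx hna hv2 hcm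
  refine ⟨hna, hv2, hth0, hth1, hqs, hwx, hb, ?_⟩
  intro n u
  obtain ⟨p, hp1, hp2⟩ := ha n
  have h2 := (hxub K I v g E L0 c e s T x W X hqs hwx hna hv2 (n • Z) (u • δ)).2.2.2.2.2
  have hz2 : (2 * n) • Z = 2 • (n • Z) := by rw [mul_smul, two_zsmul, two_nsmul]
  have hd2 : (2 * u) • δ = 2 • (u • δ) := by rw [mul_smul, two_zsmul, two_nsmul]
  refine h2 ?_ ?_ ⟨p, hp1, hmax u p hp2⟩
  · have h3 := hZ (2 * n)
    rwa [hz2] at h3
  · have h3 := hδ (2 * u)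
    rwa [hd2] at h3

end Pool.Agent.SZG.H3
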